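import Mathlib

/-!
# The conjectured bound for modified EGZ constants fails for `n = 3`, `t = 1` and every `d ≥ 3`

A sequence over `G = (ℤ/nℤ)^d` is a multiset; its length is its cardinality.
-/

set_option autoImplicit false

namespace Pool.Agent.Results.MP_b34cfe_co.FailsForTernaryCaps

/-- `m` has the property defining the modified EGZ constant `s'_k(G)` as the least such number: every
zero-sum sequence over `G` of length at least `m` has a zero-sum subsequence of length exactly `k`. -/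
def Forces (G : Type) [AddCommGroup G] (k m : ℕ) : Prop :=
  ∀ T : Multiset G, T.sum = 0 → m ≤ T.card → ∃ S ≤ T, S.card = k ∧ S.sum = 0

/-- the points of the cap: `(a, b, a² + b²)` followed by a vector with entries in `{0, 1}` -/
def f (e : ℕ) (p : ZMod 3 × ZMod 3 × (Fin e → Bool)) : Fin (e + 3) → ZMod 3 :=
  Fin.cons p.1 (Fin.cons p.2.1 (Fin.cons (p.1 ^ 2 + p.2.1 ^ 2)
    (fun i => if p.2.2 i then 1 else 0) : Fin (e + 1) → ZMod 3) : Fin (e + 2) → ZMod 3)

theorem base1 : ∀ a a' a'' : ZMod 3, a + a' + a'' = 0 →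
    (a ^ 2 + a' ^ 2 + a'' ^ 2 = 0 ∧ a = a' ∧ a' = a'') ∨ a ^ 2 + a' ^ 2 + a'' ^ 2 = 2 := by decide

theorem base (a b a' b' a'' b'' : ZMod 3) (h1 : a + a' + a'' = 0) (h2 : b + b' + b'' = 0)
    (h3 : (a ^ 2 + b ^ 2) + (a' ^ 2 + b' ^ 2) + (a'' ^ 2 + b'' ^ 2) = 0) :
    (a = a' ∧ a' = a'') ∧ (b = b' ∧ b' = b'') := by
  have h4 : (a ^ 2 + a' ^ 2 + a'' ^ 2) + (b ^ 2 + b' ^ 2 + b'' ^ 2) = 0 := by
    rw [← h3]; ring
  rcases base1 _ _ _ h1 with ⟨h5, h6⟩ | h5 <;> rcases base1 _ _ _ h2 with ⟨h7, h8⟩ | h7 <;>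
    rw [h5, h7] at h4
  · exact ⟨h6, h8⟩
  all_goals exact absurd h4 (by decide)

theorem bits : ∀ x y z : Bool, (if x then (1 : ZMod 3) else 0) + (if y then 1 else 0) +
    (if z then 1 else 0) = 0 → x = y ∧ y = z := by decide

theorem cap (e : ℕ) (p q r : ZMod 3 × ZMod 3 × (Fin e → Bool)) (h : f e p + f e q + f e r = 0) :
    p = q ∧ q = r := by
  have h0 := congrFun h 0
  have h1 := congrFun h 1
  have h2 := congrFun h 2
  have h3 : ∀ i : Fin e, p.2.2 i = q.2.2 i ∧ q.2.2 i = r.2.2 i := by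
    intro i
    have := congrFun h i.succ.succ.succ
    exact bits _ _ _ this
  obtain ⟨⟨ha, ha'⟩, hb, hb'⟩ := base _ _ _ _ _ _ h0 h1 h2
  exact ⟨Prod.ext ha (Prod.ext hb (funext fun i => (h3 i).1)),
    Prod.ext ha' (Prod.ext hb' (funext fun i => (h3 i).2))⟩

theorem f_inj (e : ℕ) : Function.Injective (f e) := by
  intro p q h
  have h3 : ∀ x : Fin (e + 3) → ZMod 3, x + x + x = 0 := by
    intro x
    funext i
    have : ∀ y : ZMod 3, y + y + y = 0 := by decide
    exact this (x i)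
  exact (cap e p p q (by rw [← h]; exact h3 _)).2

theorem three (d : ℕ) (x : Fin d → ZMod 3) : x + x + x = 0 := by
  funext i
  have : ∀ y : ZMod 3, y + y + y = 0 := by decide
  exact this (x i)

/-- the cap translated by `v` -/
def A (e : ℕ) (v : Fin (e + 3) → ZMod 3) : Multiset (Fin (e + 3) → ZMod 3) :=
  (Finset.univ : Finset (ZMod 3 × ZMod 3 × (Fin e → Bool))).val.map fun p => f e p + v

theorem card_A (e : ℕ) (v : Fin (e + 3) → ZMod 3) : (A e v).card = 9 * 2 ^ e := by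
  simp only [A, Multiset.card_map, Finset.card_val, Finset.card_univ, Fintype.card_prod,
    ZMod.card, Fintype.card_fun, Fintype.card_bool, Fintype.card_fin]
  ring

theorem nodup_A (e : ℕ) (v : Fin (e + 3) → ZMod 3) : (A e v).Nodup := by
  apply Multiset.Nodup.map _ (Finset.nodup _)
  intro p q h
  exact f_inj e (add_right_cancel h)

theorem sum_A (e : ℕ) (v : Fin (e + 3) → ZMod 3) : (A e v).sum = (A e 0).sum := by
  have h1 : (A e v).sum = ∑ p : ZMod 3 × ZMod 3 × (Fin e → Bool), (f e p + v) := rfl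
  have h2 : (A e 0).sum = ∑ p : ZMod 3 × ZMod 3 × (Fin e → Bool), (f e p + 0) := rfl
  rw [h1, h2]
  simp only [Finset.sum_add_distrib, Finset.sum_const, add_zero]
  have h3 : (Finset.univ : Finset (ZMod 3 × ZMod 3 × (Fin e → Bool))).card = 3 * (3 * 2 ^ e) := by
    simp only [Finset.card_univ, Fintype.card_prod, ZMod.card, Fintype.card_fun,
      Fintype.card_bool, Fintype.card_fin]
  rw [h3, mul_smul]
  have h4 : (3 : ℕ) • ((3 * 2 ^ e) • v) = 0 := by
    have h5 := three _ ((3 * 2 ^ e) • v)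
    have h6 : ∀ w : Fin (e + 3) → ZMod 3, (3 : ℕ) • w = w + w + w := fun w => by abel
    rw [h6]
    exact h5
  rw [h4, add_zero]

theorem no_zero_sum (e : ℕ) (v : Fin (e + 3) → ZMod 3) (S : Multiset (Fin (e + 3) → ZMod 3))
    (hS : S ≤ A e v + A e v) (hc : S.card = 3) : S.sum ≠ 0 := by
  intro h0
  obtain ⟨x, y, z, rfl⟩ := Multiset.card_eq_three.1 hc
  have hmem : ∀ w ∈ ({x, y, z} : Multiset (Fin (e + 3) → ZMod 3)), ∃ p, f e p + v = w := by
    intro w hw
    have h1 := Multiset.mem_of_le hS hw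
    rw [Multiset.mem_add, or_self, A, Multiset.mem_map] at h1
    obtain ⟨p, _, hp⟩ := h1
    exact ⟨p, hp⟩
  obtain ⟨p, hp⟩ := hmem x (by simp)
  obtain ⟨q, hq⟩ := hmem y (by simp)
  obtain ⟨r, hr⟩ := hmem z (by simp)
  have hsum : x + (y + z) = 0 := by simpa using h0
  have h2 : f e p + f e q + f e r = 0 := by
    have h3 := three _ v
    have h4 : f e p + f e q + f e r + (v + v + v) = 0 := by
      rw [← hsum, ← hp, ← hq, ← hr]
      abel
    rwa [h3, add_zero] at h4
  obtain ⟨hpq, hqr⟩ := cap e p q r h2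
  have hxy : x = y := by rw [← hp, ← hq, hpq]
  have hyz : y = z := by rw [← hq, ← hr, hqr]
  subst hxy hyz
  have h5 : Multiset.count x ({x, x, x} : Multiset (Fin (e + 3) → ZMod 3)) ≤
      Multiset.count x (A e v + A e v) := Multiset.count_le_of_le x hS
  have h6 := Multiset.nodup_iff_count_le_one.1 (nodup_A e v) x
  rw [Multiset.count_add] at h5
  have h7 : Multiset.count x ({x, x, x} : Multiset (Fin (e + 3) → ZMod 3)) = 3 := by
    simp [Multiset.insert_eq_cons]
  omega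

theorem exists_seq (e : ℕ) : ∃ T : Multiset (Fin (e + 3) → ZMod 3), T.sum = 0 ∧
    2 * 2 ^ (e + 3) + 1 ≤ T.card ∧ ∀ S ≤ T, S.card = 3 → S.sum ≠ 0 := by
  classical
  have hpow : 1 ≤ 2 ^ e := Nat.one_le_two_pow
  by_cases hs : (A e 0 + A e 0).sum = 0
  · refine ⟨A e 0 + A e 0, hs, ?_, fun S hS hc => no_zero_sum e 0 S hS hc⟩
    rw [Multiset.card_add, card_A, pow_add]
    omega
  · set s := (A e 0 + A e 0).sum with hsdef
    set v := s - f e (0, 0, fun _ => false) with hv
    have hmem : s ∈ A e v + A e v := by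
      rw [Multiset.mem_add, or_self, A, Multiset.mem_map]
      exact ⟨(0, 0, fun _ => false), Finset.mem_univ _, by rw [hv]; abel⟩
    refine ⟨(A e v + A e v).erase s, ?_, ?_, ?_⟩
    · have h1 := Multiset.sum_erase hmem
      have h2 : (A e v + A e v).sum = s := by
        rw [Multiset.sum_add, sum_A, hsdef, Multiset.sum_add]
      rw [h2] at h1
      exact add_eq_left.1 h1
    · rw [Multiset.card_erase_of_mem hmem, Multiset.card_add, card_A, pow_add,
        Nat.pred_eq_sub_one]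
      omega
    · intro S hS hc
      exact no_zero_sum e v S (hS.trans (Multiset.erase_le _ _)) hc

/-- **Q1 of MP_b34cfe_co, negative answer.**  For `n = 3`, `t = 1` and every `d ≥ 3` the conjectured
inequality fails: with `ℓ` the least integer with `ℓ ≥ 2 ^ d` and `ℓ ∤ 3`, there is a zero-sum sequence
over `(ℤ/3ℤ)^d` of length at least `(t + 2 ^ d - 1) n - ℓ + 1` without a zero-sum subsequence of length
`n t`. -/
theorem result (d : ℕ) (hd : 3 ≤ d) :
    ∃ ℓ : ℕ, IsLeast {l : ℕ | 2 ^ d ≤ l ∧ ¬ l ∣ 3} ℓ ∧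
      ¬ Forces (Fin d → ZMod 3) (3 * 1) ((1 + 2 ^ d - 1) * 3 - ℓ + 1) := by
  obtain ⟨e, rfl⟩ := Nat.exists_eq_add_of_le' hd
  have hpow : 1 ≤ 2 ^ e := Nat.one_le_two_pow
  refine ⟨2 ^ (e + 3), ⟨⟨le_rfl, ?_⟩, fun l hl => hl.1⟩, ?_⟩
  · intro h
    have := Nat.le_of_dvd (by norm_num) h
    rw [pow_add] at this
    omega
  · intro hF
    obtain ⟨T, hT, hc, hno⟩ := exists_seq e
    obtain ⟨S, hS, hSc, hS0⟩ := hF T hT (by rw [pow_add] at hc ⊢; omega)
    exact hno S hS hSc hS0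

end Pool.Agent.Results.MP_b34cfe_co.FailsForTernaryCaps
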